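import Pool.Agent.W620.SE.Super

/-!
# Superelliptic curves `a yⁿ = f(x)` with `f` a product of norms: the final statements
-/

open Polynomial IntermediateField Pool.Agent.W620.SC

namespace Pool.Agent.W620.SE

universe u v w

/-- `f` is the product of the norms of the `h i` -/
def IsNorm {k : Type*} [Field k] {I : Type*} [Fintype I] (K : I → Type*) [∀ i, Field (K i)]
    [∀ i, Algebra k (K i)] [∀ i, FiniteDimensional k (K i)] (h : ∀ i, (K i)[X]) (f : k[X]) : Prop :=
  f.map (algebraMap k (AlgebraicClosure k)) =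
    ∏ i, ∏ φ : K i →ₐ[k] AlgebraicClosure k, (h i).map (φ : K i →+* AlgebraicClosure k)

section

variable {k : Type u} [Field k] [CharZero k] {n : ℕ} {I : Type*} [Fintype I] (K : I → Type*)
    [∀ i, Field (K i)] [∀ i, Algebra k (K i)] [∀ i, FiniteDimensional k (K i)]
    (h : ∀ i, (K i)[X]) (f : k[X])

theorem no_section_of_norm {F : Type v} {Ω : Type w} [Field F] [Field Ω] [Algebra k F]
    [Algebra F Ω] [Algebra k Ω] [IsScalarTower k F Ω] [IsAlgClosed Ω] [Algebra.IsAlgebraic F Ω]
    (U : Set (ValuationSubring F)) (hU : ∀ O ∈ U, ∀ c : k, algebraMap k F c ∈ O)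
    (hn : 0 < n) (hf : f.Separable) (hfac : IsNorm K h f)
    (a : k) (ha : a ≠ 0) (x y : F) (hy : y ≠ 0) (hxy : algebraMap k F a * y ^ n = aeval x f)
    (hinf : (∀ i, n ∣ (h i).natDegree) ∨ ∀ O ∈ U, x ∈ O)
    (hnot : ¬ ∃ (r : k) (c : ∀ i, K i), a = r ^ n * ∏ i, Algebra.norm k (c i)) :
    IsEmpty (GSection k F Ω U) := by
  have hac : IsAlgClosure k (algebraicClosure k Ω) := inferInstance
  exact super_no_section' U hU hn K h f hf
    (transfer K h f _ _ (IsAlgClosure.equiv k (AlgebraicClosure k) (algebraicClosure k Ω)) hfac)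
    a ha x y hy hxy hinf hnot

/-- the value of `f` at a rational number is a norm -/
lemma eval_norm (hfac : IsNorm K h f) (x : k) :
    f.eval x = ∏ i, Algebra.norm k ((h i).eval (algebraMap k (K i) x)) := by
  apply (algebraMap k (AlgebraicClosure k)).injective
  have h1 := congrArg (Polynomial.eval (algebraMap k (AlgebraicClosure k) x)) hfac
  rw [eval_map, eval₂_at_apply] at h1
  rw [h1, eval_prod, map_prod]
  refine Finset.prod_congr rfl fun i _ => ?_
  rw [eval_prod, Algebra.norm_eq_prod_embeddings]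
  refine Finset.prod_congr rfl fun φ _ => ?_
  rw [eval_map]
  have h2 : algebraMap k (AlgebraicClosure k) x = (φ : K i →+* AlgebraicClosure k)
      (algebraMap k (K i) x) := (φ.commutes x).symm
  rw [h2, eval₂_at_apply]
  rfl

/-- `f` has no root in `k` -/
lemma no_root (hf : f.Separable) (hfac : IsNorm K h f) (a : k)
    (hnot : ¬ ∃ (r : k) (c : ∀ i, K i), a = r ^ n * ∏ i, Algebra.norm k (c i)) (x : k) :
    f.eval x ≠ 0 := by
  classical
  intro h0
  have h1 := eval_norm K h f hfac x
  rw [h0] at h1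
  obtain ⟨i, _, hi⟩ := Finset.prod_eq_zero_iff.1 h1.symm
  rw [Algebra.norm_eq_zero_iff] at hi
  -- all conjugates of `h i` vanish at `x`
  have hconj : ∀ φ : K i →ₐ[k] AlgebraicClosure k,
      (X - C (algebraMap k (AlgebraicClosure k) x)) ∣ (h i).map (φ : K i →+* AlgebraicClosure k) := by
    intro φ
    rw [dvd_iff_isRoot, IsRoot.def, eval_map]
    have h2 : algebraMap k (AlgebraicClosure k) x = (φ : K i →+* AlgebraicClosure k)
      (algebraMap k (K i) x) := (φ.commutes x).symm
    rw [h2, eval₂_at_apply, hi, map_zero]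
  have hcard : ∀ φ ψ : K i →ₐ[k] AlgebraicClosure k, φ = ψ := by
    intro φ ψ
    by_contra hne
    have h2 : ((h i).map (φ : K i →+* AlgebraicClosure k) *
        (h i).map (ψ : K i →+* AlgebraicClosure k)) ∣ f.map (algebraMap k (AlgebraicClosure k)) := by
      have h3 : f.map (algebraMap k (AlgebraicClosure k)) = _ := hfac
      rw [h3, ← Finset.mul_prod_erase Finset.univ _ (Finset.mem_univ i)]
      refine Dvd.dvd.mul_right ?_ _
      rw [← Finset.mul_prod_erase Finset.univ _ (Finset.mem_univ φ)]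
      refine mul_dvd_mul_left _ ?_
      exact Finset.dvd_prod_of_mem _ (Finset.mem_erase.2 ⟨Ne.symm hne, Finset.mem_univ ψ⟩)
    have h3 : (f.map (algebraMap k (AlgebraicClosure k))).Separable := hf.map
    have h4 := (h3.of_dvd h2).isCoprime
    have h5 := h4.isUnit_of_dvd' (hconj φ) (hconj ψ)
    exact not_isUnit_X_sub_C _ h5
  have hdeg : Module.finrank k (K i) = 1 := by
    rw [← AlgHom.card k (K i) (AlgebraicClosure k)]
    have : Nonempty (K i →ₐ[k] AlgebraicClosure k) := ⟨IsAlgClosed.lift⟩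
    obtain ⟨φ⟩ := this
    exact Fintype.card_eq_one_iff.2 ⟨φ, fun ψ => hcard ψ φ⟩
  refine hnot ⟨1, Function.update (fun _ => 1) i (algebraMap k (K i) a), ?_⟩
  rw [one_pow, one_mul, ← Finset.mul_prod_erase Finset.univ _ (Finset.mem_univ i),
    Function.update_self, Algebra.norm_algebraMap, hdeg, pow_one]
  rw [Finset.prod_eq_one, mul_one]
  intro j hj
  rw [Function.update_of_ne (Finset.ne_of_mem_erase hj), map_one]

/-- no points -/
lemma no_point (hn : 0 < n) (hf : f.Separable) (hfac : IsNorm K h f) (a : k)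
    (hnot : ¬ ∃ (r : k) (c : ∀ i, K i), a = r ^ n * ∏ i, Algebra.norm k (c i)) (x y : k) :
    a * y ^ n ≠ f.eval x := by
  intro hxy
  have hy : y ≠ 0 := by
    rintro rfl
    rw [zero_pow hn.ne', mul_zero] at hxy
    exact no_root K h f hf hfac a hnot x hxy.symm
  refine hnot ⟨y⁻¹, fun i => (h i).eval (algebraMap k (K i) x), ?_⟩
  rw [← eval_norm K h f hfac x, ← hxy, inv_pow]
  field_simp

/-- no points at infinity -/
lemma no_infinity (hfac : IsNorm K h f) (a : k) (hf : f ≠ 0)
    (hnot : ¬ ∃ (r : k) (c : ∀ i, K i), a = r ^ n * ∏ i, Algebra.norm k (c i)) (r : k) :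
    a * r ^ n ≠ f.leadingCoeff := by
  intro hr
  have hfl : f.leadingCoeff = ∏ i, Algebra.norm k ((h i).leadingCoeff) := by
    apply (algebraMap k (AlgebraicClosure k)).injective
    have h1 := congrArg Polynomial.leadingCoeff hfac
    rw [leadingCoeff_map] at h1
    rw [h1, leadingCoeff_prod, map_prod]
    refine Finset.prod_congr rfl fun i _ => ?_
    rw [leadingCoeff_prod, Algebra.norm_eq_prod_embeddings]
    refine Finset.prod_congr rfl fun φ _ => ?_
    rw [leadingCoeff_map]
    rfl
  have hr0 : r ^ n ≠ 0 := by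
    intro h0
    rw [h0, mul_zero] at hr
    exact hf (leadingCoeff_eq_zero.1 hr.symm)
  refine hnot ⟨r⁻¹, fun i => (h i).leadingCoeff, ?_⟩
  rw [← hfl, ← hr, inv_pow]
  field_simp

/-- Let `O` be an integrally closed domain with fraction field `k`, and suppose that every
nonzero element of `K i` is a product of an element of `k` and a unit of the integral closure of
`O`, and that `n` divides `[K i : k]`.  Then all elements of `k*ⁿ ∏ N(K i*)` are of the form
`rⁿ u` with `u` a unit of `O` -/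
lemma inert (O : Type*) [CommRing O] [IsDomain O] [IsIntegrallyClosed O] [Algebra O k]
    [IsFractionRing O k] [∀ i, Algebra O (K i)] [∀ i, IsScalarTower O k (K i)]
    (hdeg : ∀ i, n ∣ Module.finrank k (K i))
    (hin : ∀ i (c : K i), c ≠ 0 → ∃ b : k, b ≠ 0 ∧ IsIntegral O (algebraMap k (K i) b * c) ∧
      IsIntegral O (algebraMap k (K i) b * c)⁻¹)
    (a : k) (ha : a ≠ 0) (hna : ¬ ∃ (r : k) (u : Oˣ), a = r ^ n * algebraMap O k u) :
    ¬ ∃ (r : k) (c : ∀ i, K i), a = r ^ n * ∏ i, Algebra.norm k (c i) := by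
  rintro ⟨r, c, hc⟩
  have hc0 : ∀ i, c i ≠ 0 := by
    intro i hi
    apply ha
    rw [hc, Finset.prod_eq_zero (Finset.mem_univ i), mul_zero]
    rw [hi, Algebra.norm_zero]
  have key : ∀ i, ∃ (s : k) (u : Oˣ), Algebra.norm k (c i) = s ^ n * algebraMap O k u := by
    intro i
    obtain ⟨b, hb, h1, h2⟩ := hin i (c i) (hc0 i)
    obtain ⟨m, hm⟩ := hdeg i
    have h3 : IsIntegral O (Algebra.norm k (algebraMap k (K i) b * c i)) :=
      Algebra.isIntegral_norm k h1
    have h4 : IsIntegral O (Algebra.norm k (algebraMap k (K i) b * c i)⁻¹) :=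
      Algebra.isIntegral_norm k h2
    obtain ⟨z, hz⟩ := IsIntegrallyClosed.isIntegral_iff.1 h3
    obtain ⟨z', hz'⟩ := IsIntegrallyClosed.isIntegral_iff.1 h4
    have hbc : algebraMap k (K i) b * c i ≠ 0 :=
      mul_ne_zero ((_root_.map_ne_zero _).2 hb) (hc0 i)
    have h5 : z * z' = 1 := by
      apply IsFractionRing.injective O k
      rw [map_mul, hz, hz', map_one, ← map_mul, mul_inv_cancel₀ hbc, map_one]
    refine ⟨(b ^ m)⁻¹, ⟨z, z', h5, by rw [mul_comm]; exact h5⟩, ?_⟩
    change _ = ((b ^ m)⁻¹) ^ n * algebraMap O k z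
    rw [hz, map_mul, Algebra.norm_algebraMap, hm, inv_pow, ← pow_mul, mul_comm m n,
      ← mul_assoc, inv_mul_cancel₀ (pow_ne_zero _ hb), one_mul]
  choose s u hsu using key
  refine hna ⟨r * ∏ i, s i, ∏ i, u i, ?_⟩
  rw [hc, Finset.prod_congr rfl fun i _ => hsu i, Finset.prod_mul_distrib, mul_pow,
    ← Finset.prod_pow, ← mul_assoc]
  congr 1
  rw [← map_prod]
  congr 1
  exact (Units.coe_prod _ _).symm

end

end Pool.Agent.W620.SE
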