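import Pool.Agent.W620.SC.Explicit

/-!
# Superelliptic curves `a yⁿ = f(x)` with `f` a product of norms
-/

open Polynomial IntermediateField Pool.Agent.W620.SC

namespace Pool.Agent.W620.SE

section transfer

/-- every element of `k(α)` is a polynomial in `α` -/
lemma exists_poly {k K : Type*} [Field k] [Field K] [Algebra k K] [FiniteDimensional k K] {α : K}
    (hα : k⟮α⟯ = ⊤) (c : K) : ∃ P : k[X], aeval α P = c := by
  have h1 : c ∈ k⟮α⟯ := by rw [hα]; trivial
  have h2 : c ∈ Algebra.adjoin k {α} := by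
    rw [← IntermediateField.adjoin_simple_toSubalgebra_of_isAlgebraic (Algebra.IsAlgebraic.isAlgebraic α)]
    exact h1
  rw [Algebra.adjoin_singleton_eq_range_aeval] at h2
  exact h2

/-- the norm condition does not depend on the algebraic closure -/
lemma transfer {k : Type*} [Field k] {I : Type*} [Fintype I] (K : I → Type*)
    [∀ i, Field (K i)] [∀ i, Algebra k (K i)] [∀ i, FiniteDimensional k (K i)]
    (h : ∀ i, (K i)[X]) (f : k[X]) (A A' : Type*) [Field A] [Algebra k A] [Field A'] [Algebra k A']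
    [∀ i, Fintype (K i →ₐ[k] A)] [∀ i, Fintype (K i →ₐ[k] A')] (e : A ≃ₐ[k] A')
    (hfac : f.map (algebraMap k A) = ∏ i, ∏ φ : K i →ₐ[k] A, (h i).map (φ : K i →+* A)) :
    f.map (algebraMap k A') = ∏ i, ∏ φ : K i →ₐ[k] A', (h i).map (φ : K i →+* A') := by
  have h1 := congrArg (Polynomial.map (e : A →+* A')) hfac
  rw [Polynomial.map_map, Polynomial.map_prod] at h1
  have h2 : (e : A →+* A').comp (algebraMap k A) = algebraMap k A' := by
    ext c
    exact e.commutes c
  rw [h2] at h1
  rw [h1]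
  refine Finset.prod_congr rfl fun i _ => ?_
  rw [Polynomial.map_prod]
  let E : (K i →ₐ[k] A) ≃ (K i →ₐ[k] A') := (AlgEquiv.refl).arrowCongr e
  refine Fintype.prod_equiv E _ _ fun φ => ?_
  rw [Polynomial.map_map]
  rfl

end transfer

section valuation

variable {Ω : Type*} [Field Ω] {W : ValuationSubring Ω}

/-- polynomials with coefficients in `W` take elements of `W` to `W` -/
lemma eval₂_mem {A : Type*} [Field A] (ι : A →+* Ω) (hι : ∀ c, ι c ∈ W) {x : Ω} (hx : x ∈ W)
    (P : A[X]) : P.eval₂ ι x ∈ W := by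
  rw [eval₂_eq_sum, Polynomial.sum]
  exact sum_mem fun i _ => mul_mem (hι _) (pow_mem hx i)

/-- the value at infinity -/
lemma infinity_unit {A : Type*} [Field A] (ι : A →+* Ω) (hι : ∀ c, ι c ∈ W) {x : Ω} (hx : x ∉ W)
    {P : A[X]} (hP : P ≠ 0) : IsU W (P.eval₂ ι x / x ^ P.natDegree) := by
  have hx0 : x ≠ 0 := by
    rintro rfl
    exact hx (zero_mem _)
  have hxn : x⁻¹ ∈ W.nonunits := (W.inv_mem_nonunits_iff).2 (Or.inr hx)
  have hxW : x⁻¹ ∈ W := W.nonunits_subset hxn
  have h1 : P.eval₂ ι x / x ^ P.natDegree = (reverse P).eval₂ ι x⁻¹ := by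
    let _ := invertibleOfNonzero hx0
    have h2 := Polynomial.eval₂_reverse_mul_pow ι x P
    rw [invOf_eq_inv] at h2
    rw [← h2, mul_div_assoc, div_self (pow_ne_zero _ hx0), mul_one]
  rw [h1, ← divX_mul_X_add (reverse P), eval₂_add, eval₂_mul, eval₂_X, eval₂_C, coeff_zero_reverse,
    add_comm]
  have h3 : ι P.leadingCoeff ≠ 0 := (_root_.map_ne_zero ι).2 (leadingCoeff_ne_zero.2 hP)
  refine isU_add ⟨hι _, ?_⟩ ?_ h3
  · rw [← map_inv₀]
    exact hι _
  · rw [W.mem_nonunits_iff, map_mul]
    exact lt_of_le_of_lt (mul_le_of_le_one_left' ((W.valuation_le_one_iff _).2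
      (eval₂_mem ι hι hxW _))) ((W.mem_nonunits_iff).1 hxn)

/-- the value of a factor at a point where it vanishes -/
lemma coprime_unit {A : Type*} [Field A] (ι : A →+* Ω) (hι : ∀ c, ι c ∈ W) {x : Ω} (hx : x ∈ W)
    {P Q : A[X]} (hPQ : IsCoprime P Q) (hP : P.eval₂ ι x ∈ W.nonunits) : IsU W (Q.eval₂ ι x) := by
  obtain ⟨u, v, huv⟩ := hPQ
  have h1 := congrArg (Polynomial.eval₂ ι x) huv
  rw [eval₂_add, eval₂_mul, eval₂_mul, eval₂_one] at h1
  have hQ := eval₂_mem ι hι hx Q
  have hu := eval₂_mem ι hι hx u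
  have hv := eval₂_mem ι hι hx v
  refine isU_of_not_nonunit hQ fun hn => ?_
  have h2 : (1 : Ω) ∈ W.nonunits := by
    rw [← h1]
    refine W.nonunits.add_mem ?_ ?_
    · rw [W.mem_nonunits_iff, map_mul]
      exact lt_of_le_of_lt (mul_le_of_le_one_left' ((W.valuation_le_one_iff _).2 hu))
        ((W.mem_nonunits_iff).1 hP)
    · rw [W.mem_nonunits_iff, map_mul]
      exact lt_of_le_of_lt (mul_le_of_le_one_left' ((W.valuation_le_one_iff _).2 hv))
        ((W.mem_nonunits_iff).1 hn)
  rw [W.mem_nonunits_iff, map_one] at h2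
  exact lt_irrefl _ h2

end valuation

section main

universe u v w

variable {k : Type u} {F : Type v} {Ω : Type w} [Field k] [Field F] [Field Ω] [Algebra k F]
  [Algebra F Ω] [Algebra k Ω] [IsScalarTower k F Ω]

theorem super_no_section' [CharZero k] [IsAlgClosed Ω] [Algebra.IsAlgebraic F Ω]
    (U : Set (ValuationSubring F)) (hU : ∀ O ∈ U, ∀ c : k, algebraMap k F c ∈ O)
    {n : ℕ} (hn : 0 < n) {I : Type*} [Fintype I] (K : I → Type*)
    [∀ i, Field (K i)] [∀ i, Algebra k (K i)] [∀ i, FiniteDimensional k (K i)]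
    (h : ∀ i, (K i)[X]) (f : k[X]) (hf : f.Separable)
    (hfac : f.map (algebraMap k (algebraicClosure k Ω)) =
      ∏ i, ∏ φ : K i →ₐ[k] algebraicClosure k Ω, (h i).map (φ : K i →+* algebraicClosure k Ω))
    (a : k) (ha : a ≠ 0) (x y : F) (hy : y ≠ 0) (hxy : algebraMap k F a * y ^ n = aeval x f)
    (hinf : (∀ i, n ∣ (h i).natDegree) ∨ ∀ O ∈ U, x ∈ O)
    (hnot : ¬ ∃ (r : k) (c : ∀ i, K i), a = r ^ n * ∏ i, Algebra.norm k (c i)) :
    IsEmpty (GSection k F Ω U) := by
  classical
  set A := algebraicClosure k Ω with hAdef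
  have hac : IsAlgClosure k A := inferInstance
  have hA : IsAlgClosed A := hac.1
  have : ∀ i, Algebra.IsSeparable k (K i) := fun i => inferInstance
  have hα : ∀ i, ∃ α : K i, k⟮α⟯ = ⊤ := fun i => Field.exists_primitive_element k (K i)
  choose α hα using hα
  let φ₀ : ∀ i, K i →ₐ[k] A := fun i => IsAlgClosed.lift
  set θ : I → A := fun i => φ₀ i (α i) with hθ
  choose P hP using fun i (c : K i) => exists_poly (hα i) c
  set Z : I → F[X] := fun i => ∑ m ∈ Finset.range ((h i).natDegree + 1),
    ((P i ((h i).coeff m)).map (algebraMap k F)) * C (x ^ m) with hZ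
  have hfx : ∀ i, h i ≠ 0 := by
    intro i hi
    have h1 : f.map (algebraMap k A) = 0 := by
      rw [hfac]
      refine Finset.prod_eq_zero (Finset.mem_univ i) ?_
      refine Finset.prod_eq_zero (Finset.mem_univ (φ₀ i)) ?_
      rw [hi, Polynomial.map_zero]
    have h2 := hf.ne_zero
    exact h2 ((Polynomial.map_eq_zero _).1 h1)
  -- the value of `Z`
  have hZval : ∀ i (φ : K i →ₐ[k] A), aeval ((φ (α i) : A) : Ω) (Z i) =
      ((h i).map (φ : K i →+* A)).eval₂ (algebraMap A Ω) (algebraMap F Ω x) := by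
    intro i φ
    rw [hZ]
    simp only [map_sum, map_mul, aeval_C]
    rw [eval₂_map, eval₂_eq_sum_range]
    refine Finset.sum_congr rfl fun m _ => ?_
    rw [aeval_map_algebraMap, map_pow]
    congr 1
    have h1 : aeval ((φ (α i) : A) : Ω) (P i ((h i).coeff m)) =
        ((aeval (φ (α i)) (P i ((h i).coeff m)) : A) : Ω) :=
      Polynomial.aeval_algHom_apply A.val (φ (α i)) _
    rw [h1, Polynomial.aeval_algHom_apply, hP]
    rfl
  have hprod : ∏ i, ∏ φ : K i →ₐ[k] A, aeval ((φ (α i) : A) : Ω) (Z i) =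
      algebraMap k Ω a * algebraMap F Ω y ^ n := by
    have h1 : algebraMap k Ω a * algebraMap F Ω y ^ n =
        (f.map (algebraMap k A)).eval₂ (algebraMap A Ω) (algebraMap F Ω x) := by
      rw [IsScalarTower.algebraMap_apply k F Ω, ← map_pow, ← map_mul, hxy, eval₂_map,
        ← IsScalarTower.algebraMap_eq k A Ω, ← Polynomial.aeval_def,
        Polynomial.aeval_algebraMap_apply]
    rw [h1, hfac, eval₂_finsetProd]
    refine Finset.prod_congr rfl fun i _ => ?_
    rw [eval₂_finsetProd]
    exact Finset.prod_congr rfl fun φ _ => hZval i φ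
  have hy0 : algebraMap F Ω y ≠ 0 := (_root_.map_ne_zero _).2 hy
  have haΩ : algebraMap k Ω a ≠ 0 := (_root_.map_ne_zero _).2 ha
  -- the fields `k(θ_i)` and `K_i`
  have hrange : ∀ i, (φ₀ i).fieldRange = k⟮θ i⟯ := by
    intro i
    rw [AlgHom.fieldRange_eq_map, ← hα i, IntermediateField.adjoin_map, Set.image_singleton]
  let e : ∀ i, K i ≃ₐ[k] k⟮θ i⟯ := fun i =>
    (AlgEquiv.ofInjectiveField (φ₀ i)).trans (IntermediateField.equivOfEq (hrange i))
  have heα : ∀ i, e i (α i) = AdjoinSimple.gen k (θ i) := by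
    intro i
    apply Subtype.ext
    rfl
  have hint : ∀ i, IsIntegral k (θ i) := fun i => Algebra.IsIntegral.isIntegral _
  have hfin : ∀ i, FiniteDimensional k k⟮θ i⟯ := fun i => adjoin.finiteDimensional (hint i)
  refine no_section (k := k) U hU hn θ Z a ha y hy ?_ ?_ ?_
  · intro i W hW
    have hWk : ∀ c : k, algebraMap k Ω c ∈ W := by
      intro c
      rw [IsScalarTower.algebraMap_apply k F Ω]
      exact hU _ hW c
    have hWA : ∀ c : A, algebraMap A Ω c ∈ W := fun c => const_mem hWk c.2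
    have hval := hZval i (φ₀ i)
    by_cases hx : algebraMap F Ω x ∈ W
    · by_cases hnu : aeval ((θ i : A) : Ω) (Z i) ∈ W.nonunits
      · -- the product of the other factors
        set J : Type _ := Σ i, (K i →ₐ[k] A) with hJ
        set Q : A[X] := ∏ j ∈ (Finset.univ : Finset J).erase ⟨i, φ₀ i⟩,
          (h j.1).map (j.2 : K j.1 →+* A) with hQ
        have hfQ : f.map (algebraMap k A) = (h i).map (φ₀ i : K i →+* A) * Q := by
          rw [hfac, hQ, Finset.mul_prod_erase (Finset.univ : Finset J)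
            (fun j : J => (h j.1).map (j.2 : K j.1 →+* A)) (Finset.mem_univ ⟨i, φ₀ i⟩),
            Fintype.prod_sigma]
        have hcop : IsCoprime ((h i).map (φ₀ i : K i →+* A)) Q := by
          have h1 : (f.map (algebraMap k A)).Separable := hf.map
          rw [hfQ] at h1
          exact h1.isCoprime
        have hQu : IsU W (Q.eval₂ (algebraMap A Ω) (algebraMap F Ω x)) := by
          refine coprime_unit (algebraMap A Ω) hWA hx hcop ?_
          rw [← hval]
          exact hnu
        have hzR : aeval ((θ i : A) : Ω) (Z i) * Q.eval₂ (algebraMap A Ω) (algebraMap F Ω x) =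
            algebraMap k Ω a * algebraMap F Ω y ^ n := by
          rw [hval, ← eval₂_mul, ← hfQ, IsScalarTower.algebraMap_apply k F Ω, ← map_pow,
            ← map_mul, hxy, eval₂_map, ← IsScalarTower.algebraMap_eq k A Ω,
            ← Polynomial.aeval_def, Polynomial.aeval_algebraMap_apply]
        have haU : IsU W (algebraMap k Ω a) := by
          refine ⟨hWk a, ?_⟩
          rw [← map_inv₀]
          exact hWk _
        set R : Ω := Q.eval₂ (algebraMap A Ω) (algebraMap F Ω x) with hR
        have hR0 : R ≠ 0 := by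
          intro h0
          rw [h0, mul_zero] at hzR
          exact mul_ne_zero haΩ (pow_ne_zero n hy0) hzR.symm
        refine ⟨algebraMap F Ω y, IntermediateField.algebraMap_mem _ y, hy0, ?_⟩
        have h1 : aeval ((θ i : A) : Ω) (Z i) / algebraMap F Ω y ^ n =
            algebraMap k Ω a * R⁻¹ := by
          rw [div_eq_iff (pow_ne_zero n hy0), mul_right_comm, ← hzR]
          field_simp
        have h2 := haU.mul hQu.inv
        rw [← h1] at h2
        refine ⟨h2.1, ?_⟩
        rw [← inv_div]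
        exact h2.2
      · refine ⟨1, one_mem _, one_ne_zero, ?_⟩
        have hu : IsU W (aeval ((θ i : A) : Ω) (Z i)) := by
          refine isU_of_not_nonunit ?_ hnu
          rw [hval]
          exact eval₂_mem _ hWA hx _
        rw [one_pow, div_one, one_div]
        exact hu
    · -- at infinity
      have hdeg : ∀ i, n ∣ (h i).natDegree := by
        rcases hinf with h1 | h1
        · exact h1
        · exact absurd (h1 _ hW) hx
      obtain ⟨m, hm⟩ := hdeg i
      have hx0 : algebraMap F Ω x ≠ 0 := by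
        intro h0
        rw [h0] at hx
        exact hx (zero_mem _)
      refine ⟨algebraMap F Ω x ^ m, pow_mem (IntermediateField.algebraMap_mem _ x) m,
        pow_ne_zero m hx0, ?_⟩
      have h1 := infinity_unit (W := W) (algebraMap A Ω) hWA hx
        (P := (h i).map (φ₀ i : K i →+* A)) ((Polynomial.map_ne_zero_iff
          (φ₀ i : K i →+* A).injective).2 (hfx i))
      rw [natDegree_map, hm, ← hval, mul_comm n m, pow_mul] at h1
      refine ⟨h1.1, ?_⟩
      rw [← inv_div]
      exact h1.2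
  · rw [← hprod]
    refine Finset.prod_congr rfl fun i _ => ?_
    rw [← prod_embeddings (θ i) (hint i) (fun ρ : A => aeval (ρ : Ω) (Z i))]
    let E : (k⟮θ i⟯ →ₐ[k] A) ≃ (K i →ₐ[k] A) := (e i).symm.arrowCongr AlgEquiv.refl
    refine Fintype.prod_equiv E _ _ fun φ => ?_
    have h1 : E φ (α i) = φ (AdjoinSimple.gen k (θ i)) := by
      change φ (e i (α i)) = _
      rw [heα]
    rw [h1]
  · rintro ⟨c, r, hc⟩
    refine hnot ⟨r, fun i => (e i).symm (c i), ?_⟩
    rw [hc]
    congr 1
    refine Finset.prod_congr rfl fun i _ => ?_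
    rw [Algebra.norm_eq_of_algEquiv (e i).symm]

end main

end Pool.Agent.W620.SE
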